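import Pool.Agent.L7h3.GL.Stm

/-! Project GL, parts GCON and LIFT. -/

set_option autoImplicit false

namespace Pool.Agent.L7h9.GL

open Pool.Agent.L7h3.GL

theorem s_GCON : S_GCON := by
  intro L _ ρ hρ b T x hT hx
  refine ⟨?_, ?_, ?_⟩
  · rintro w ⟨a, ha, hax, rfl⟩
    refine hρ.sm b a x (hT a ha) (hT x hx).le ?_
    intro hle
    apply hax
    have h1 := (hT x hx).2 (hT a ha).lt
    rcases hle.lt_or_eq with h2 | h2
    · exact absurd h2 h1
    · exact h2
  · unfold tp
    apply le_antisymm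
    · refine sup_le ((le_sSup hx).trans le_sup_right) (sSup_le ?_)
      rintro w ⟨a, ha, -, rfl⟩
      exact (sup_le (le_sSup hx) (le_sSup ha)).trans le_sup_right
    · refine sup_le ((hT x hx).le.trans le_sup_left) (sSup_le fun a ha => ?_)
      by_cases hax : a = x
      · rw [hax]; exact le_sup_left
      · exact (le_sup_right : a ≤ x ⊔ a).trans
          ((le_sSup (show x ⊔ a ∈ Con x T from ⟨a, ha, hax, rfl⟩)).trans le_sup_right)
  · intro z hz
    have hxz : x ≤ z := by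
      rw [hz]
      exact le_sup_left
    apply le_antisymm
    · have hx2 : x ≤ b ⊔ sSup {a | a ∈ T ∧ a ≤ z} :=
        (le_sSup (show x ∈ {a | a ∈ T ∧ a ≤ z} from ⟨hx, hxz⟩)).trans le_sup_right
      have h1 : x ⊔ sSup {a | a ∈ Con x T ∧ a ≤ z} ≤ b ⊔ sSup {a | a ∈ T ∧ a ≤ z} := by
        refine sup_le hx2 (sSup_le ?_)
        rintro w ⟨⟨a, ha, hax, rfl⟩, hwz⟩
        exact sup_le hx2 ((le_sSup (show a ∈ {a | a ∈ T ∧ a ≤ z} from
          ⟨ha, le_sup_right.trans hwz⟩)).trans le_sup_right)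
      exact (le_of_eq hz).trans h1
    · exact sup_le ((hT x hx).le.trans hxz) (sSup_le fun a ha => ha.2)

theorem s_LIFT (hG : S_GCON) : S_LIFT := by
  intro L _ ρ hρ b T x w l hT hx hw hPc hl
  obtain ⟨h1, h2, h3⟩ := hG L ρ hρ b T x hT hx
  obtain ⟨hh, hc, hlast⟩ := hPc
  obtain ⟨l', rfl⟩ : ∃ l', l = w :: l' := by
    cases l with
    | nil => simp at hh
    | cons y l' =>
      simp only [List.head?_cons, Option.some.injEq] at hh
      exact ⟨l', by rw [hh]⟩
  refine ⟨⟨rfl, ?_, ?_⟩, ?_⟩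
  · rw [List.isChain_cons_cons]
    exact ⟨h1 w hw, hc⟩
  · intro z hz
    rw [List.getLast?_cons_cons] at hz
    have := hlast z hz
    rwa [h2] at this
  · intro z hz
    rcases List.mem_cons.mp hz with rfl | hz
    · apply le_antisymm
      · exact (le_sSup (show z ∈ {a | a ∈ T ∧ a ≤ z} from ⟨hx, le_rfl⟩)).trans le_sup_right
      · exact sup_le (hT z hx).le (sSup_le fun a ha => ha.2)
    · exact h3 z (hl z hz)

end Pool.Agent.L7h9.GL
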